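import Mathlib
import Pool.Agent.X323.CN.Core
import Pool.Agent.X323.CN.Geo
import Pool.Agent.W603.PV.Ext

set_option autoImplicit false

/-!
# Vojta's height inequality over function fields: the constant is larger than one

Let `K` be a function field of one variable over an algebraically closed field `k` of characteristic
zero, `n ≥ 2`, and let `D` be a divisor of `ℙ^n` over `K` which contains the `n + 1` coordinate
hyperplanes and at least one more component `F = 0` (moving or constant, of any degree `e ≥ 1`), which
meets the three lines joining three of the coordinate vertices transversally (this holds if `D` has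
normal crossings); the rest `E = 0` of `D` is arbitrary. Suppose that
`h_{K_X + D}(P) ≤ C (χ(P) + N^{(1)}_D(P)) + O(1)` for all algebraic points `P` outside of `D` and of a
hypersurface `G = 0`. Then `C > 1`, and `deg G + deg E ≥ ∑ b φ(b)`, the sum over the `b ≥ 2` up to the
largest `B` with `C (deg (K_X + D) B - 1) < deg (K_X + D) B`. So the exceptional set grows if `C` tends
to one. The constant in `O(1)` may even depend on the field of definition of `P`.
-/

namespace Pool.Agent.Results.MP_4dacf8_ag.ConstantNearOne

open FF MvPolynomial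

section
variable {k K L : Type} [Field k] [Field K] [Field L] [Algebra k L] [Algebra K L]

/-- The least order at the place `P` of the coordinates of a point of projective space. -/
noncomputable def minOrd {n : ℕ} (P : Place k L) (x : Fin (n + 1) → L) : ℤ :=
  ⨅ j : {j // x j ≠ 0}, P.ord (x j)

variable (k) in
/-- The height, relative to `L`, of the point with homogeneous coordinates `x`: minus the sum over the
places of `L` of the least order of the coordinates. -/
noncomputable def height {n : ℕ} (x : Fin (n + 1) → L) : ℤ := - ∑ᶠ P : Place k L, minOrd P x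

variable (k) in
/-- The set of the places of `L` at which the point `x` meets the divisor `D`, the sum of the
coordinate hyperplanes, of `F = 0` (of degree `e`) and of `E = 0` (of degree `e'`). -/
def meets {n : ℕ} (e : ℕ) (F : MvPolynomial (Fin (n + 1)) K) (e' : ℕ)
    (E : MvPolynomial (Fin (n + 1)) K) (x : Fin (n + 1) → L) : Set (Place k L) :=
  {P | (∃ i, minOrd P x < P.ord (x i)) ∨ e * minOrd P x < P.ord (aeval x F) ∨
    e' * minOrd P x < P.ord (aeval x E)}

end

/-- For every finite extension `L` of `K` there is a constant `B` such that the height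
`(e + e') h(x) = h_{K_X + D}(x)` is at most `C N^{(1)}_D(x) + B` for the `L`-rational points `x` off
`D` and off `G = 0`; heights and counting functions are relative to `L`. This follows from the
inequality `h_{K_X + D} ≤ C (χ + N^{(1)}_D) + O(1)` of the problem (normalised by `1 / [L : K]`), since
`χ` is the same for all points over `L`. -/
def Inequality (k K : Type) [Field k] [Field K] [Algebra k K] {n : ℕ} (e : ℕ)
    (F : MvPolynomial (Fin (n + 1)) K) (e' : ℕ) (E : MvPolynomial (Fin (n + 1)) K) (C : ℝ)
    (G : MvPolynomial (Fin (n + 1)) K) : Prop :=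
  ∀ (L : Type) [Field L] [Algebra k L] [Algebra K L] [IsScalarTower k K L]
    [FiniteDimensional K L], ∃ B : ℝ, ∀ x : Fin (n + 1) → L, (∀ i, x i ≠ 0) → aeval x F ≠ 0 →
      aeval x E ≠ 0 → aeval x G ≠ 0 →
      ((e : ℝ) + e') * (height k x : ℝ) ≤ C * ((meets k e F e' E x).ncard : ℝ) + B

/-- `F = 0` does not contain the coordinate vertices `i` and `j`, and meets the line joining them
transversally (over the algebraic closure): at the common points of the two the derivatives of `F`
with respect to the variables `i` and `j` do not both vanish. -/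
def Transversal {K : Type} [Field K] {n : ℕ} (F : MvPolynomial (Fin (n + 1)) K)
    (i j : Fin (n + 1)) : Prop :=
  ∀ u : Fin (n + 1) → AlgebraicClosure K, u ≠ 0 → (∀ l, l ≠ i → l ≠ j → u l = 0) →
    aeval u F = 0 → u i ≠ 0 ∧ u j ≠ 0 ∧ (aeval u (pderiv i F) ≠ 0 ∨ aeval u (pderiv j F) ≠ 0)

/-- The curve `t ↦ (u_0 t ^ κ_0 : ⋯ : u_n t ^ κ_n)`, a coset of a one-dimensional subtorus, passes
for `t = 1` through the point `u` of `F = 0`, off the coordinate hyperplanes, is tangent to `F = 0`
there (the derivative of `F(u_i t ^ κ_i)` at `t = 1` is zero), and is not contained in `F = 0`; the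
least exponent is zero. -/
structure Tangent {K L : Type} [Field K] [Field L] [Algebra K L] {n : ℕ}
    (F : MvPolynomial (Fin (n + 1)) K) (u : Fin (n + 1) → L) (κ : Fin (n + 1) → ℕ) : Prop where
  off : ∀ i, u i ≠ 0
  on : aeval u F = 0
  tangent : ∑ i, (κ i : L) * u i * aeval u (pderiv i F) = 0
  notIn : ∃ t : L, aeval (fun i => u i * t ^ κ i) F ≠ 0
  zero : ∃ j, κ j = 0

theorem aeval_map' {K L : Type} [Field K] [Field L] [Algebra K L] {σ : Type}
    (F : MvPolynomial σ K) (x : σ → L) : aeval x F = eval x (map (algebraMap K L) F) := by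
  rw [aeval_def, eval_map]

open Pool.Agent.X323.TV in
theorem onCurve_map {R S : Type} [CommRing R] [CommRing S] (φ : R →+* S) {ι : Type} (u : ι → R)
    (κ : ι → ℕ) (P : MvPolynomial ι R) :
    (onCurve u κ P).map φ = onCurve (fun i => φ (u i)) κ (map φ P) := by
  induction P using MvPolynomial.induction_on with
  | C a => simp [onCurve]
  | add p q hp hq => rw [map_add, Polynomial.map_add, hp, hq, map_add, map_add]
  | mul_X p i hp =>
    rw [map_mul, Polynomial.map_mul, hp, map_mul, map_mul, map_X]
    simp [onCurve]

open Pool.Agent.X323.CN Pool.Agent.X323.TV Pool.Agent.W603.PV in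
/-- The exceptional set contains the tangent cosets. -/
theorem cosets {k K : Type} [Field k] [IsAlgClosed k] [CharZero k] [Field K] [Algebra k K]
    [IsFF k K] {n e : ℕ} {F : MvPolynomial (Fin (n + 1)) K} (hF : F.IsHomogeneous e) (he : 1 ≤ e)
    {e' : ℕ} {E : MvPolynomial (Fin (n + 1)) K} (hE : E.IsHomogeneous e')
    {C : ℝ} {G : MvPolynomial (Fin (n + 1)) K} (hineq : Inequality k K e F e' E C G)
    {L : Type} [Field L] [Algebra k L] [Algebra K L] [IsScalarTower k K L] [FiniteDimensional K L]
    {u : Fin (n + 1) → L} {κ : Fin (n + 1) → ℕ} (hu : ∀ i, u i ≠ 0)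
    (hFu : eval u (map (algebraMap K L) F) = 0)
    (htan : ∑ i, (κ i : L) * u i * eval u (pderiv i (map (algebraMap K L) F)) = 0)
    (hnot : onCurve u κ (map (algebraMap K L) F) ≠ 0) {j0 i0 : Fin (n + 1)} (hj0 : κ j0 = 0)
    (hi0 : ∀ i, κ i ≤ κ i0)
    (hc : C * (((e : ℝ) + e') * κ i0 - 1) < ((e : ℝ) + e') * κ i0) :
    onCurve u κ (map (algebraMap K L) (G * E)) = 0 := by
  have : IsFF k L := isFF_of_finite (k := k) (F := K) (L := L)
  obtain ⟨B, hB⟩ := hineq L
  rw [map_mul]
  refine core (k := k) (hF.map _) he (hE.map _) (c := C) (B := B) ?_ hu hFu htan hnot hj0 hi0 hc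
  intro x hx h1 h2 h3
  have h := hB x hx (by rwa [aeval_map']) (by rwa [aeval_map']) (by rwa [aeval_map'])
  have h4 : (meets k e F e' E x) = meetsL k e (map (algebraMap K L) F) e'
      (map (algebraMap K L) E) x := by
    unfold meets
    rw [aeval_map', aeval_map']
    rfl
  rw [h4] at h
  exact h

open Pool.Agent.X323.CN Pool.Agent.X323.TV Pool.Agent.X323.FT in
/-- Let `K` be a function field of one variable over an algebraically closed field `k` of
characteristic zero, `F` a form of degree `e ≥ 1` and `E` a nonzero form of degree `e'` over `K` in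
`n + 1` variables, `D` the sum of the coordinate hyperplanes, of `F = 0` and of `E = 0`. Let `C` be a
real number and `G` a nonzero form of degree `δ` over `K` such that
`h_{K_X + D}(P) ≤ C (χ(P) + N^{(1)}_D(P)) + O(1)` for the algebraic points `P` off `D` and off `G = 0`,
or only `(e + e') h(P) ≤ C N^{(1)}_D(P) + O_L(1)` for every finite extension `L` of `K` and the
`L`-rational points.
(1) For every finite extension `L` of `K`, every coset over `L` which is tangent to `F = 0` and whose
largest exponent `m` satisfies `C ((e + e') m - 1) < (e + e') m` lies in `G E = 0`.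
(2) If `F = 0` meets the three lines joining three of the coordinate vertices transversally, then
`C > 1` and `∑_{2 ≤ b ≤ B} b φ(b) ≤ δ + e'` for every `B` with
`C ((e + e') B - 1) < (e + e') B`. -/
theorem result (k K : Type) [Field k] [IsAlgClosed k] [CharZero k] [Field K] [Algebra k K]
    [IsFF k K] (n e : ℕ) (he : 1 ≤ e) (F : MvPolynomial (Fin (n + 1)) K)
    (hF : F.IsHomogeneous e) (e' : ℕ) (E : MvPolynomial (Fin (n + 1)) K) (hE : E.IsHomogeneous e')
    (hE0 : E ≠ 0) (C : ℝ) (δ : ℕ) (G : MvPolynomial (Fin (n + 1)) K)
    (hG : G.IsHomogeneous δ) (hG0 : G ≠ 0) (hineq : Inequality k K e F e' E C G) :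
    (∀ (L : Type) [Field L] [Algebra k L] [Algebra K L] [IsScalarTower k K L]
      [FiniteDimensional K L] (u : Fin (n + 1) → L) (κ : Fin (n + 1) → ℕ) (m : ℕ),
      Tangent F u κ → (∀ i, κ i ≤ m) → (∃ i, κ i = m) →
      C * (((e : ℝ) + e') * m - 1) < ((e : ℝ) + e') * m →
      ∀ t : L, aeval (fun i => u i * t ^ κ i) (G * E) = 0) ∧
    ∀ i₀ i₁ i₂ : Fin (n + 1), i₀ ≠ i₁ → i₀ ≠ i₂ → i₁ ≠ i₂ →
      Transversal F i₀ i₁ → Transversal F i₀ i₂ → Transversal F i₁ i₂ → 1 < C ∧
      ∀ B : ℕ, C * (((e : ℝ) + e') * B - 1) < ((e : ℝ) + e') * B →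
        ∑ b ∈ Finset.Icc 2 B, b * b.totient ≤ δ + e' := by
  refine ⟨?_, ?_⟩
  · intro L _ _ _ _ _ u κ m ht hm hm2 hc t
    obtain ⟨h1, h2, h3, ⟨s, h4⟩, ⟨j0, h5⟩⟩ := ht
    obtain ⟨i0, rfl⟩ := hm2
    have h := cosets hF he hE hineq (L := L) (u := u) (κ := κ) h1 (by rwa [← aeval_map'])
      (by
        rw [← h3]
        refine Finset.sum_congr rfl fun i _ => ?_
        rw [pderiv_map, ← aeval_map'])
      (by
        intro h
        apply h4
        rw [aeval_map', ← eval_onCurve, h, Polynomial.eval_zero]) h5 hm hc
    rw [aeval_map', ← eval_onCurve, h, Polynomial.eval_zero]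
  · intro i₀ i₁ i₂ h01 h02 h12 hT01 hT02 hT12
    set Ω := AlgebraicClosure K
    have hs : (1 : ℝ) ≤ (e : ℝ) + e' := by
      have h1 : (1 : ℝ) ≤ e := by exact_mod_cast he
      have h2 : (0 : ℝ) ≤ e' := Nat.cast_nonneg _
      linarith
    have hcz : CharZero K := charZero_of_injective_algebraMap (algebraMap k K).injective
    have hcz2 : CharZero Ω := charZero_of_injective_algebraMap (algebraMap K Ω).injective
    have hTr : ∀ i j, Transversal F i j → Trans (map (algebraMap K Ω) F) i j := by
      intro i j h u hu0 hu hFu
      have h1 := h u hu0 hu (by rwa [aeval_map'])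
      rw [aeval_map', aeval_map', ← pderiv_map, ← pderiv_map] at h1
      exact h1
    have main : ∀ B : ℕ, C * (((e : ℝ) + e') * B - 1) < ((e : ℝ) + e') * B →
        ∑ b ∈ Finset.Icc 2 B, b * b.totient ≤ δ + e' := by
      intro B hB
      refine geo (hF.map (algebraMap K Ω)) he h01 h02 h12 (hTr _ _ hT01) (hTr _ _ hT02)
        (hTr _ _ hT12) ((hG.mul hE).map (algebraMap K Ω)) ?_ B ?_
      · intro h
        exact mul_ne_zero hG0 hE0 (map_injective _ (algebraMap K Ω).injective
          (by rw [h, map_zero]))
      · intro u κ j0 i0 hu hFu htan hnot hj0 hi0 hκ1 hκB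
        -- the field of definition
        set L : IntermediateField K Ω := IntermediateField.adjoin K (Set.range u) with hL
        have : FiniteDimensional K L := by
          refine IntermediateField.finiteDimensional_adjoin fun x _ => ?_
          exact Algebra.IsIntegral.isIntegral x
        set v : Fin (n + 1) → L := fun i =>
          ⟨u i, IntermediateField.subset_adjoin K _ ⟨i, rfl⟩⟩ with hv
        have hvu : (fun i => algebraMap L Ω (v i)) = u := rfl
        have hinj : Function.Injective (algebraMap L Ω) := (algebraMap L Ω).injective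
        have hmm : ∀ P : MvPolynomial (Fin (n + 1)) K,
            map (algebraMap L Ω) (map (algebraMap K L) P) = map (algebraMap K Ω) P := by
          intro P
          rw [map_map, ← IsScalarTower.algebraMap_eq K L Ω]
        have hev : ∀ P : MvPolynomial (Fin (n + 1)) K,
            algebraMap L Ω (eval v (map (algebraMap K L) P)) =
              eval u (map (algebraMap K Ω) P) := by
          intro P
          rw [← hmm P, eval_map (algebraMap L Ω)]
          exact eval₂_comp_left (algebraMap L Ω) (RingHom.id L) v (map (algebraMap K L) P)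
        have hc : C * (((e : ℝ) + e') * κ i0 - 1) < ((e : ℝ) + e') * κ i0 := by
          have b1 : (1 : ℝ) ≤ κ i0 := by exact_mod_cast hκ1
          have b2 : (κ i0 : ℝ) ≤ B := by exact_mod_cast hκB
          rcases le_or_gt C 1 with h | h
          · have b3 : (0 : ℝ) ≤ ((e : ℝ) + e') * κ i0 - 1 := by nlinarith
            nlinarith
          · have b4 : (C - 1) * (((e : ℝ) + e') * κ i0) ≤ (C - 1) * (((e : ℝ) + e') * B) := by
              refine mul_le_mul_of_nonneg_left ?_ (by linarith)
              exact mul_le_mul_of_nonneg_left b2 (by linarith)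
            nlinarith
        have h := cosets hF he hE hineq (L := L) (u := v) (κ := κ)
          (fun i h => hu i (by
            have := congrArg (algebraMap L Ω) h
            rwa [map_zero] at this))
          (hinj (by rw [hev, hFu, map_zero]))
          (hinj (by
            rw [map_sum, map_zero, ← htan]
            refine Finset.sum_congr rfl fun i _ => ?_
            rw [map_mul, map_mul, map_natCast, pderiv_map, hev, ← pderiv_map]
            rfl))
          (by
            intro h
            apply hnot
            rw [← hmm F, ← hvu, ← onCurve_map, h, Polynomial.map_zero]) hj0 hi0 hc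
        have h2 := congrArg (Polynomial.map (algebraMap L Ω)) h
        rw [onCurve_map, hvu, hmm, Polynomial.map_zero] at h2
        exact h2
    refine ⟨?_, main⟩
    by_contra hcon
    push Not at hcon
    obtain ⟨B, hB⟩ := sum_unbounded (δ + e')
    have hB1 : 1 ≤ B := by
      by_contra h
      have : B = 0 := by omega
      subst this
      simp at hB
    refine absurd (main B ?_) (not_le.2 hB)
    have b1 : (1 : ℝ) ≤ B := by exact_mod_cast hB1
    have b3 : (0 : ℝ) ≤ ((e : ℝ) + e') * B - 1 := by nlinarith
    nlinarith

end Pool.Agent.Results.MP_4dacf8_ag.ConstantNearOne
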