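import Pool.Agent.TH875.Vg.FinH

set_option autoImplicit false

/-!
# Vojta's height inequality for `n + 2` arbitrary moving hyperplanes and very general divisors

`k` is an algebraically closed field of characteristic zero and `F` a function field of one variable
over `k`. The divisor of `ℙ^n` over `F` is the sum of at most `n + 2` ARBITRARY hyperplanes over `F`
in general position (they may move or be constant, nothing is assumed to be generic) and of the
hypersurfaces `h i + g i = 0`, where the `h i` are arbitrary forms over `F` and the `g i` are very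
general forms over `k`.
-/

namespace Pool.Agent.Results.MP_4dacf8_ag.HyperplanesAndVeryGeneral

open FF MvPolynomial

section

variable (k F : Type) {L : Type} [Field k] [Field F] [Field L] [Algebra k L] [Algebra F L]

/-- The least order at the place `P` of the coordinates of a point of projective space. -/
noncomputable def minOrd {n : ℕ} (P : Place k L) (x : Fin (n + 1) → L) : ℤ :=
  ⨅ j : {j // x j ≠ 0}, P.ord (x j)

/-- The height of the point with homogeneous coordinates `x`: minus the sum over the places of `L`
of the least order of the coordinates, that is, the degree of the pull-back of `O(1)` to the curve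
with function field `L`. -/
noncomputable def height {n : ℕ} (x : Fin (n + 1) → L) : ℤ := - ∑ᶠ P : Place k L, minOrd k P x

/-- The ramification index over `F` of the place `P` of `L`. -/
noncomputable def ramification (P : Place k L) : ℕ :=
  sInf {m : ℕ | 0 < m ∧ ∃ x : F, P.ord (algebraMap F L x) = m}

variable (L) in
/-- The degree of the ramification divisor of the extension `L` of `F`: the sum over the places of
`L` of `e - 1`, where `e` is the ramification index. It is `2 g(L) - 2 - [L : F] (2 g(F) - 2)`. -/
noncomputable def discriminant : ℤ := ∑ᶠ P : Place k L, ((ramification k F P : ℤ) - 1)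

/-- The value at `x` of the linear form with the coefficients `l`. -/
noncomputable def lin {n : ℕ} (l : Fin (n + 1) → F) (x : Fin (n + 1) → L) : L :=
  ∑ a, algebraMap F L (l a) * x a

variable [Algebra k F]

/-- The set of the places `P` of `L`, not over a place in `T`, at which the point `x` meets one of
the hypersurfaces `f i = 0` (of degree `d i`) or one of the hyperplanes `l j = 0` that do not
contain `x`. -/
def meets {n q b : ℕ} (T : Finset (Place k F)) (d : Fin q → ℕ)
    (f : Fin q → MvPolynomial (Fin (n + 1)) F) (l : Fin b → Fin (n + 1) → F)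
    (x : Fin (n + 1) → L) : Set (Place k L) :=
  {P | (∀ v ∈ T, ¬ ∀ y : F, 0 < v.ord y → 0 < P.ord (algebraMap F L y)) ∧
    ((∃ i, aeval x (f i) ≠ 0 ∧ d i * minOrd k P x < P.ord (aeval x (f i))) ∨
      ∃ j, lin F (l j) x ≠ 0 ∧ minOrd k P x < P.ord (lin F (l j) x))}

end

open Classical in
/-- Let `l j`, `j < b`, be `b ≤ n + 2` ARBITRARY hyperplanes of `ℙ^n` over `F` in general position
(any `n + 1` of them are linearly independent), and let `h i`, `i < q`, be arbitrary forms over `F`
of degrees `d i ≥ 1`. There is a countable subfield `k₁` of `k` such that for every finite set `T`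
of places of `F` there is a constant `C` with the following property. Let `g i` be forms of degrees
`d i` over `k` all of whose coefficients together are algebraically independent over `k₁`, and
`f i = h i + g i`. For every finite extension `L` of `F` and every point `x` of `ℙ^n(L)` let `Z` be
the number of the hypersurfaces `f i = 0` and hyperplanes `l j = 0` that contain `x`, `N` the number
of the places of `L`, not over `T`, at which `x` meets one of the others, and `R` the degree of the
ramification divisor of `L` over `F`. Then
`(∑ i, d i + b - 2 n - 1 + Z) h(x) ≤ N + R + C [L : F]`. -/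
theorem result (k F : Type) [Field k] [IsAlgClosed k] [CharZero k] [Field F] [Algebra k F]
    [IsFF k F] (n q b : ℕ) (hb : b ≤ n + 2) (l : Fin b → Fin (n + 1) → F)
    (hl : ∀ s : Finset (Fin b), s.card ≤ n + 1 → LinearIndependent F (fun j : s => l j))
    (d : Fin q → ℕ) (hd : ∀ i, 1 ≤ d i)
    (h : Fin q → MvPolynomial (Fin (n + 1)) F) (hh : ∀ i, (h i).IsHomogeneous (d i)) :
    ∃ k₁ : Subfield k, Countable k₁ ∧ ∀ T : Finset (Place k F), ∃ C : ℕ,
      ∀ g : Fin q → MvPolynomial (Fin (n + 1)) k, (∀ i, (g i).IsHomogeneous (d i)) →
      AlgebraicIndependent k₁ (fun p : (i : Fin q) × {α : Fin (n + 1) →₀ ℕ // α.degree = d i} =>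
        (g p.1).coeff p.2.1) →
      ∀ (L : Type) [Field L] [Algebra k L] [Algebra F L] [IsScalarTower k F L]
          [FiniteDimensional F L] (x : Fin (n + 1) → L), x ≠ 0 →
        (meets k F T d (fun i => h i + map (algebraMap k F) (g i)) l x).Finite ∧
        (∑ i, (d i : ℤ) + b - 2 * n - 1 +
            (Finset.univ.filter fun i => aeval x (h i + map (algebraMap k F) (g i)) = 0).card +
            (Finset.univ.filter fun j => lin F (l j) x = 0).card) * height k x ≤
          (meets k F T d (fun i => h i + map (algebraMap k F) (g i)) l x).ncard +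
            discriminant k F L + C * Module.finrank F L := by
  obtain ⟨k₁, hk₁, h1⟩ := Pool.Agent.TH875.Vg.final_H (k := k) (d := d) hd hh hb hl
  refine ⟨k₁, hk₁, fun T => ?_⟩
  obtain ⟨C, hC⟩ := h1 T
  refine ⟨C, fun g hg hai L _ _ _ _ _ x hx => ?_⟩
  have hx' : ∃ j, x j ≠ 0 := by
    by_contra hcon
    push Not at hcon
    exact hx (funext hcon)
  exact hC g hg (hai.comp
    (fun p : (i : Fin q) × Pool.Agent.TH875.Vg.Expo n (d i) =>
      (⟨p.1, ⟨p.2.1, (Pool.Agent.TH875.Vg.mem_expo p.2.1).1 p.2.2⟩⟩ :
        (i : Fin q) × {α : Fin (n + 1) →₀ ℕ // α.degree = d i})) (by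
      rintro ⟨i, α⟩ ⟨j, β⟩ hab
      simp only [Sigma.mk.injEq] at hab
      obtain ⟨rfl, hab⟩ := hab
      rw [heq_eq_eq, Subtype.mk.injEq] at hab
      rw [Subtype.ext hab])) L x hx'

end Pool.Agent.Results.MP_4dacf8_ag.HyperplanesAndVeryGeneral
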