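import Mathlib
import Pool.Agent.X333.MV.Exc

/-!
Vojta's height inequality over function fields, for pairs given by nested sums of few high powers of
monomials, with the exceptional set.
-/

set_option autoImplicit false

namespace Pool.Agent.Results.MP_4dacf8_ag.NestedMonomialPairs

open FF MvPolynomial Pool.Agent.W603.LV Pool.Agent.W603.PV Pool.Agent.W603.CZ
  Pool.Agent.X333.MC Pool.Agent.X333.MV
open Pool.Agent.W602.GT (IsForm)

/-- Let `F` be a function field of one variable over the algebraically closed field `k` of
characteristic zero. Let `X` be the closed subset `Fs i = 0` of projective `n`-space over `F`, and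
`D` the union of the divisors `Q j = 0`, where the forms `Fs i` and the finitely many `Q j` are
nested sums of few high powers of monomials over `F` (`MTower`, `MTowerLog`); the coordinate
hyperplanes are allowed among the `Q j`. There are a closed subset `Z` of `X` (given by the
homogeneous ideal `J`) and constants `B`, `C` such that: the orbit of the generic point of each
component of `Z` which is not contained in `D` under some diagonal one-parameter group is not a
point, and is contained in `X` and disjoint from `D`; each component of `X` which is not contained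
in `D` and not covered by such orbits in it is not contained in `Z`; and for every finite extension
`L` of `F` and every point `f` of `X` over `L` outside `Z` and `D` the height of `f` (relative to
`L`) is at most `B (2 g(L) - 2 + N1) + C [L : F]`, where `N1` is the number of places of `L` at
which `f` meets `D`. -/
theorem result {k F : Type} [Field k] [IsAlgClosed k] [CharZero k] [Field F] [Algebra k F]
    [IsFF k F] {n : ℕ} {ι κ : Type} [Finite κ] (Fs : ι → MvPolynomial (Fin (n + 1)) F)
    (hF : ∀ i, IsForm (Fs i) ∧ MTower (Fs i)) (Q : κ → MvPolynomial (Fin (n + 1)) F) (q : κ → ℕ)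
    (hQ : ∀ j, MTowerLog (Q j) (q j)) :
    ∃ J : Ideal (MvPolynomial (Fin (n + 1)) F),
      (∀ H ∈ J, ∀ d, homogeneousComponent d H ∈ J) ∧ (∀ i, Fs i ∈ J) ∧
      (∀ p ∈ J.minimalPrimes, (∃ j, X j ∉ p) → (∀ j, Q j ∉ p) → HasOrbitIn p Fs Q) ∧
      (∀ p ∈ (Ideal.span (Set.range Fs)).minimalPrimes, (∃ j, X j ∉ p) → (∀ j, Q j ∉ p) →
        HasOrbit p Q ∨ ∃ G ∈ J, G ∉ p) ∧
      ∃ (B C : ℕ), ∀ (L : Type) [Field L] [Algebra k L] [Algebra F L]
        [IsScalarTower k F L] [FiniteDimensional F L] (f : Fin (n + 1) → L),
        (∃ j, f j ≠ 0) → (∀ i, aeval f (Fs i) = 0) → (∀ j, aeval f (Q j) ≠ 0) →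
        (∃ G ∈ J, aeval f G ≠ 0) →
          pht k f ≤ B * (canDeg k L + (meetsAny (k := k) Q q f).ncard) +
            C * Module.finrank F L :=
  vojta_pairs Fs hF Q q hQ

end Pool.Agent.Results.MP_4dacf8_ag.NestedMonomialPairs
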