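import Pool.Agent.X323.GI.OrbC

/-!
# Vojta's height inequality for cyclic covers and orbifold pairs over function fields

Let `k` be an algebraically closed field of characteristic zero and `F` a function field of one
variable over `k`, the function field of a curve. Let `V` be an arbitrary closed subset of the
projective space of dimension `n`, of dimension at most `m`, defined over a subfield `F0` of `F` that is
finitely generated over a subfield `k0` of `k`; it may be singular and need not be defined over `k`. Let
`H_a`, for `a` in a finite set, be forms of degrees `d_a` over `F` that are generic relative to `F0`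
(for instance very general forms over `k`, if `F0` is countable, or generic families of forms, which are
not isotrivial). Let `q_a` be natural numbers; the weight of the hypersurface `H_a = 0` is
`1 - 1 / q_a`, and `1` if `q_a = 0`. We prove the following.

(1) Orbifold pairs. There is a constant `C` such that for all finite extensions `L` of `F` and all points
`x` of `V` over `L`
`(δ(x) - 2 m - 1) h(x) ≤ N(x) + 2 g(L) - 2 + C [L : F]`,
where `δ(x)` is the sum of the numbers `(1 - 1 / q_a) d_a` for the `a` with `H_a(x) ≠ 0` and
`d_a + 1` for the `a` with `H_a(x) = 0`, and `N(x)` is the number of the places at which `x` meets a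
hypersurface `H_a = 0` that does not contain `x` with contact order less than `q_a` (any positive
contact order, if `q_a = 0`).

(2) Cyclic covers. Let `E` be a set of indices, let `q_a` divide `d_a` for the `a ∉ E` with `q_a ≠ 0`, and
let `X` be the cover `y_a ^ q_a = H_a(x)`, for these `a`, of the intersection of `V` with the
hypersurfaces `H_a = 0`, `a ∈ E`. Let `D` be the union of the hypersurfaces `H_a = 0` for the
`a ∉ E` with `q_a = 0`. Let `δ` be the sum of the numbers `d_a + 1`, `a ∈ E`, and
`(1 - 1 / q_a) d_a`, `a ∉ E`. There is a constant `C` such that for all finite extensions `L` of `F` and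
all points of `X` over `L` that are not in `D`
`(δ - 2 m - 1) h(x) ≤ N(x) + 2 g(L) - 2 + C [L : F]`,
where `N(x)` is the number of the places of `L` at which the point meets `D`, each counted once.

(3) All closed subvarieties of `X ∖ D` of dimension `w ≥ max (1, 2 m + 2 - δ)` (over any algebraically
closed field `Ω` that contains `F`) are of log general type. If `δ ≥ 2 m + 2`, the conjecture holds for
these pairs, and all subvarieties of them, with `Z = D`.

Here `h(x)` is the height with respect to `O(1)`, relative to `L`; the morphism from `X` to the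
projective space is finite, so the pull-back of `O(1)` to `X` is ample.
-/

set_option autoImplicit false

namespace Pool.Agent.Results.MP_4dacf8_ag.OrbifoldCovers

open MvPolynomial FF Pool.Agent.W603.LV Pool.Agent.W603.PV Pool.Agent.W602.GT Pool.Agent.X323.GI
open Pool.Agent.TH145.MG (DimLE)

/-- The forms `H a` of degrees `d a` over `F` are generic relative to `F0`: the ratios of the
coefficients of each form to one nonzero coefficient of it are algebraically independent over `F0`,
for all forms together. -/
def Generic {F α : Type} (F0 : Type) [Field F0] [Field F] [Algebra F0 F] {n : ℕ}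
    (H : α → MvPolynomial (Fin (n + 1)) F) (d : α → ℕ) : Prop :=
  (∀ a, (H a).IsHomogeneous (d a)) ∧ ∃ I : α → Fin (n + 1) →₀ ℕ, (∀ a, (H a).coeff (I a) ≠ 0) ∧
    AlgebraicIndependent F0 fun p : {p : α × (Fin (n + 1) →₀ ℕ) //
      p.2.degree = d p.1 ∧ p.2 ≠ I p.1} => (H p.1.1).coeff p.1.2 / (H p.1.1).coeff (I p.1.1)

/-- All closed subvarieties of dimension `w`, over `Ω`, of the part of the cover outside of `D` are of log
general type. The subvariety is given by its function field `K` (or a finite extension of it), of
transcendence degree `w` over `Ω`, and its generic point `(x, y)`. -/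
def LogGeneral {F0 F α : Type} [Field F0] [Field F] [Algebra F0 F] {n : ℕ}
    (V : Set (MvPolynomial (Fin (n + 1)) F0)) (H : α → MvPolynomial (Fin (n + 1)) F) (d : α → ℕ)
    (E : Finset α) (q : α → ℕ) (w : ℕ) : Prop :=
  ∀ (Ω K : Type) [Field Ω] [Field K] [Algebra F Ω] [Algebra F0 Ω] [IsScalarTower F0 F Ω]
    [Algebra Ω K] [IsAlgClosed Ω], Algebra.trdeg Ω K = w →
    ∀ (x : Fin (n + 1) → K) (y : α → K), OnCover V (fun a => map (algebraMap F Ω) (H a)) E q x y →
      Algebra.IsAlgebraic (coords Ω x) K →
      LogGeneralType Ω K w fun Q : Place Ω K =>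
        Q ∈ MeetsD Ω (fun a => map (algebraMap F Ω) (H a)) d E q x

theorem result {k0 k F0 F : Type} [Field k0] [Field k] [Field F0] [Field F] [IsAlgClosed k]
    [CharZero k] [Algebra k0 k] [Algebra k F] [Algebra k0 F] [IsScalarTower k0 k F]
    [Algebra k0 F0] [Algebra F0 F] [IsScalarTower k0 F0 F] [IsFF k F]
    (hfg : ∃ S : Finset F0, IntermediateField.adjoin k0 (S : Set F0) = ⊤) {n m : ℕ}
    (V : Set (MvPolynomial (Fin (n + 1)) F0)) (hVh : ∀ f ∈ V, ∃ e, f.IsHomogeneous e)
    (hV : DimLE F0 V m) {α : Type} [Fintype α] [DecidableEq α]
    (H : α → MvPolynomial (Fin (n + 1)) F) (d : α → ℕ) (hH : Generic F0 H d) (q : α → ℕ) :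
    -- (1) orbifold pairs
    (∃ C : ℕ, ∀ (L : Type) [Field L] [Algebra k L] [Algebra F L]
      [IsScalarTower k F L] [FiniteDimensional F L] (x : Fin (n + 1) → L), x ≠ 0 →
      (∀ f ∈ V, aeval x (map (algebraMap F0 F) f) = 0) →
      (LowContact k H d q x).Finite ∧
      (orbDegree H d q x - 2 * m - 1) * (pht k x : ℚ) ≤
        ((LowContact k H d q x).ncard : ℚ) + canDeg k L + C * Module.finrank F L) ∧
    -- (2) cyclic covers, (3) log general type
    ∀ E : Finset α, (∀ a, a ∉ E → q a ≠ 0 → q a ∣ d a) →
      (∃ C : ℕ, ∀ (L : Type) [Field L] [Algebra k L] [Algebra F L]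
        [IsScalarTower k F L] [FiniteDimensional F L] (x : Fin (n + 1) → L) (y : α → L),
        OnCover V H E q x y →
        (MeetsD k H d E q x).Finite ∧
        ((covDegree d E q : ℤ) - 2 * m - 1) * pht k x ≤
          (MeetsD k H d E q x).ncard + canDeg k L + C * Module.finrank F L) ∧
      ∀ w : ℕ, 0 < w → 2 * m + 2 ≤ covDegree d E q + w → LogGeneral V H d E q w := by
  obtain ⟨hHh, I0, hI0, hgen⟩ := hH
  refine ⟨orb_main (k0 := k0) (k := k) hfg V hV H d hHh I0 hI0 hgen q, fun E hq =>
    ⟨cover_ineq (k0 := k0) (k := k) hfg V hV H d hHh I0 hI0 hgen E q hq, ?_⟩⟩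
  intro w hw hd Ω K _ _ _ _ _ _ _ htr x y hxy hgx
  have hF : CharZero F := charZero_of_injective_algebraMap (algebraMap k F).injective
  have hΩ : CharZero Ω := charZero_of_injective_algebraMap (algebraMap F Ω).injective
  exact cover_gt V hVh hV H d hHh I0 hI0 hgen E q hq hd hw htr x y hxy hgx

end Pool.Agent.Results.MP_4dacf8_ag.OrbifoldCovers
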